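import Mathlib
import Pool.Agent.X199.GirthMetric

set_option autoImplicit false

namespace Pool.Agent.Results.MP_fe8a5b_an.LargeGirth

open Pool.Agent.X199.GirthMetric Pool.Agent.W179.Erdos SimpleGraph

/-- The real vector space of the Lipschitz functions `f : M → ℝ` with `f x₀ = 0`. -/
def lipSubmodule (M : Type) [MetricSpace M] (x₀ : M) : Submodule ℝ (M → ℝ) where
  carrier := {f | f x₀ = 0 ∧ ∃ K : ℝ, ∀ x y, |f x - f y| ≤ K * dist x y}
  add_mem' := by
    rintro f g ⟨hf, K, hK⟩ ⟨hg, L, hL⟩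
    refine ⟨by simp [hf, hg], K + L, fun x y => ?_⟩
    calc |(f + g) x - (f + g) y| = |(f x - f y) + (g x - g y)| := by
          congr 1; simp only [Pi.add_apply]; ring
      _ ≤ |f x - f y| + |g x - g y| := abs_add_le _ _
      _ ≤ (K + L) * dist x y := by rw [add_mul]; exact add_le_add (hK x y) (hL x y)
  zero_mem' := ⟨rfl, 0, fun x y => by simp⟩
  smul_mem' := by
    rintro c f ⟨hf, K, hK⟩
    refine ⟨by simp [hf], |c| * K, fun x y => ?_⟩
    calc |(c • f) x - (c • f) y| = |c| * |f x - f y| := by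
          rw [← abs_mul]; congr 1; simp only [Pi.smul_apply, smul_eq_mul]; ring
      _ ≤ |c| * (K * dist x y) := mul_le_mul_of_nonneg_left (hK x y) (abs_nonneg c)
      _ = |c| * K * dist x y := by ring

/-- `Lip M x₀` is the space of the Lipschitz functions `f : M → ℝ` with `f x₀ = 0`. -/
def Lip (M : Type) [MetricSpace M] (x₀ : M) : Type := lipSubmodule M x₀

section lip

variable {M : Type} [MetricSpace M] {x₀ : M}

noncomputable instance : AddCommGroup (Lip M x₀) := inferInstanceAs (AddCommGroup (lipSubmodule M x₀))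
noncomputable instance : Module ℝ (Lip M x₀) := inferInstanceAs (Module ℝ (lipSubmodule M x₀))

instance : CoeFun (Lip M x₀) (fun _ => M → ℝ) := ⟨fun f => f.1⟩

/-- The norm on `Lip M x₀` is the best Lipschitz constant
`sup_{x ≠ y} |f x - f y| / d(x, y)` (the quotient is `0` for `x = y`). -/
noncomputable instance : Norm (Lip M x₀) :=
  ⟨fun f => ⨆ p : M × M, |f p.1 - f p.2| / dist p.1 p.2⟩

theorem norm_def (f : Lip M x₀) : ‖f‖ = ⨆ p : M × M, |f p.1 - f p.2| / dist p.1 p.2 := rfl

theorem add_coe (f g : Lip M x₀) (x : M) : (f + g) x = f x + g x := rfl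
theorem sub_coe (f g : Lip M x₀) (x : M) : (f - g) x = f x - g x := rfl
theorem smul_coe (c : ℝ) (f : Lip M x₀) (x : M) : (c • f) x = c * f x := rfl
theorem zero_coe (x : M) : (0 : Lip M x₀) x = 0 := rfl

theorem bdd (f : Lip M x₀) :
    BddAbove (Set.range fun p : M × M => |f p.1 - f p.2| / dist p.1 p.2) := by
  obtain ⟨K, hK⟩ := f.2.2
  refine ⟨max K 0, ?_⟩
  rintro _ ⟨p, rfl⟩
  simp only
  rcases eq_or_lt_of_le (dist_nonneg (x := p.1) (y := p.2)) with h | h
  · rw [← h, div_zero]
    exact le_max_right _ _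
  · rw [div_le_iff₀ h]
    exact (hK _ _).trans (mul_le_mul_of_nonneg_right (le_max_left _ _) h.le)

theorem le_norm (f : Lip M x₀) (x y : M) : |f x - f y| ≤ ‖f‖ * dist x y := by
  rcases eq_or_lt_of_le (dist_nonneg (x := x) (y := y)) with h | h
  · rw [dist_eq_zero.mp h.symm]
    simp
  · rw [← div_le_iff₀ h]
    exact le_ciSup (bdd f) (x, y)

theorem norm_nonneg' (f : Lip M x₀) : 0 ≤ ‖f‖ :=
  (div_nonneg (abs_nonneg _) dist_nonneg).trans (le_ciSup (bdd f) (x₀, x₀))

theorem norm_le (f : Lip M x₀) {C : ℝ} (hC : 0 ≤ C) (h : ∀ x y, |f x - f y| ≤ C * dist x y) :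
    ‖f‖ ≤ C := by
  have : Nonempty (M × M) := ⟨(x₀, x₀)⟩
  apply ciSup_le
  intro p
  rcases eq_or_lt_of_le (dist_nonneg (x := p.1) (y := p.2)) with h0 | h0
  · rw [← h0, div_zero]; exact hC
  · rw [div_le_iff₀ h0]; exact h _ _

theorem core : NormedSpace.Core ℝ (Lip M x₀) where
  norm_nonneg := norm_nonneg'
  norm_smul c f := by
    rw [norm_def, norm_def, Real.norm_eq_abs, Real.mul_iSup_of_nonneg (abs_nonneg c)]
    congr 1
    funext p
    rw [smul_coe, smul_coe, ← mul_sub, abs_mul, mul_div_assoc]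
  norm_triangle f g := by
    apply norm_le _ (add_nonneg (norm_nonneg' f) (norm_nonneg' g))
    intro x y
    rw [add_coe, add_coe, add_mul]
    calc |f x + g x - (f y + g y)| = |(f x - f y) + (g x - g y)| := by ring_nf
      _ ≤ |f x - f y| + |g x - g y| := abs_add_le _ _
      _ ≤ _ := add_le_add (le_norm f x y) (le_norm g x y)
  norm_eq_zero_iff f := by
    constructor
    · intro h
      apply Subtype.ext
      funext x
      have h1 := le_norm f x x₀
      rw [h, zero_mul] at h1
      have h2 : f x - f x₀ = 0 := abs_eq_zero.mp (le_antisymm h1 (abs_nonneg _))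
      have h3 : f x₀ = 0 := f.2.1
      rw [h3, sub_zero] at h2
      exact h2
    · rintro rfl
      apply le_antisymm _ (norm_nonneg' _)
      apply norm_le _ le_rfl
      intro x y
      simp [zero_coe]

noncomputable instance : NormedAddCommGroup (Lip M x₀) := NormedAddCommGroup.ofCore core
noncomputable instance : NormedSpace ℝ (Lip M x₀) := NormedSpace.ofCore core

end lip

/-- A normed space is almost square (ASQ) if for every finite family `x 1, …, x k` in the unit
sphere and every `ε > 0` there is `y` in the unit sphere with `‖x i ± y‖ ≤ 1 + ε` for all `i`. -/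
def AlmostSquare (X : Type) [NormedAddCommGroup X] [NormedSpace ℝ X] : Prop :=
  ∀ (k : ℕ) (x : Fin k → X), (∀ i, ‖x i‖ = 1) → ∀ ε : ℝ, 0 < ε →
    ∃ y : X, ‖y‖ = 1 ∧ ∀ i, ‖x i + y‖ ≤ 1 + ε ∧ ‖x i - y‖ ≤ 1 + ε

theorem exists_edge {M : Type} (G : SimpleGraph M) (ℓ : M → ℕ)
    (hcol : ∀ (n : ℕ) (C : Type) [Fintype C] (c : M → C), Fintype.card C ≤ n →
      ∃ a b, G.Adj a b ∧ ℓ a = n + 1 ∧ c a = c b)
    {k : ℕ} (f : Fin k → M → ℝ) (hf : ∀ i a b, G.Adj a b → |f i a - f i b| ≤ 1)
    {ε : ℝ} (hε : 0 < ε) :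
    ∃ n0 : ℕ, ∀ n, n0 ≤ n → ∃ a b, G.Adj a b ∧ ℓ a = n + 1 ∧ ∀ i, |f i a - f i b| ≤ ε := by
  obtain ⟨N, hN⟩ := exists_nat_gt (1 / ε + 1)
  have hN0 : 0 < N := by
    have : (0 : ℝ) < N := lt_trans (by positivity) hN
    exact_mod_cast this
  have : NeZero N := ⟨hN0.ne'⟩
  refine ⟨Fintype.card (Fin k → ZMod N), fun n hn => ?_⟩
  obtain ⟨a, b, hab, ha, hc⟩ := hcol n (Fin k → ZMod N)
    (fun x i => ((⌊f i x / ε⌋ : ℤ) : ZMod N)) hn
  refine ⟨a, b, hab, ha, fun i => ?_⟩
  have h1 : ((⌊f i a / ε⌋ : ℤ) : ZMod N) = ((⌊f i b / ε⌋ : ℤ) : ZMod N) := congrFun hc i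
  rw [ZMod.intCast_eq_intCast_iff_dvd_sub] at h1
  have h2 := hf i a b hab
  have e1 := Int.floor_le (f i a / ε)
  have e2 := Int.lt_floor_add_one (f i a / ε)
  have e3 := Int.floor_le (f i b / ε)
  have e4 := Int.lt_floor_add_one (f i b / ε)
  have h3 : |f i a / ε - f i b / ε| ≤ 1 / ε := by
    rw [← sub_div, abs_div, abs_of_pos hε]
    exact div_le_div_of_nonneg_right h2 hε.le
  rw [abs_le] at h3
  have h4 : |((⌊f i b / ε⌋ - ⌊f i a / ε⌋ : ℤ) : ℝ)| < N := by
    rw [abs_lt]
    push_cast
    constructor <;> linarith [h3.1, h3.2]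
  have h5 : |⌊f i b / ε⌋ - ⌊f i a / ε⌋| < (N : ℤ) := by exact_mod_cast h4
  have h6 : ⌊f i b / ε⌋ - ⌊f i a / ε⌋ = 0 := Int.eq_zero_of_abs_lt_dvd h1 h5
  have h7 : ((⌊f i b / ε⌋ : ℤ) : ℝ) = ⌊f i a / ε⌋ := by
    have : ⌊f i b / ε⌋ = ⌊f i a / ε⌋ := by omega
    exact_mod_cast this
  have h8 : |f i a / ε - f i b / ε| ≤ 1 := by
    rw [abs_le]
    constructor <;> linarith
  rw [← sub_div, abs_div, abs_of_pos hε, div_le_one hε] at h8
  exact h8

/-- There is an unbounded uniformly discrete metric space `M` such that `Lip M x₀` is almost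
square, for every base point `x₀`. -/
theorem result : ∃ (M : Type) (_ : MetricSpace M),
    (∃ r : ℝ, 0 < r ∧ ∀ x y : M, x ≠ y → r ≤ dist x y) ∧
    (¬ ∃ R : ℝ, ∀ x y : M, dist x y ≤ R) ∧
    ∀ x₀ : M, AlmostSquare (Lip M x₀) := by
  classical
  obtain ⟨M, G, ℓ, hℓ1, hℓ, hlev, hcol, hcyc⟩ := exists_graph
  letI := metric G ℓ hℓ1 hℓ
  have hdist : ∀ x y : M, dist x y = (dd G ℓ x y : ℝ) := fun x y => rfl
  have hd1 : ∀ x y : M, x ≠ y → 1 ≤ dist x y := by
    intro x y hxy
    rw [hdist]
    exact_mod_cast dd_pos G ℓ hℓ1 hxy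
  have hadj1 : ∀ a b : M, G.Adj a b → dist a b = 1 := by
    intro a b hab
    apply le_antisymm _ (hd1 a b hab.ne)
    rw [hdist]
    have := dd_le_walk G ℓ hab.toWalk
    simp only [Walk.length_cons, Walk.length_nil] at this
    exact_mod_cast this
  refine ⟨M, inferInstance, ⟨1, one_pos, hd1⟩, ?_, ?_⟩
  · rintro ⟨R, hR⟩
    obtain ⟨n, hn⟩ := exists_nat_gt R
    obtain ⟨x, hx⟩ := hlev n
    obtain ⟨y, hy⟩ := hlev (n + 1)
    have h := hR x y
    rw [hdist] at h
    have h2 : dd G ℓ x y = max (ℓ x) (ℓ y) := by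
      rcases dd_cases G ℓ hℓ x y with ⟨_, _, h⟩ | h
      · omega
      · exact h
    have h3 : n ≤ dd G ℓ x y := by rw [h2]; omega
    have h4 : (n : ℝ) ≤ dd G ℓ x y := by exact_mod_cast h3
    linarith
  intro x₀ k f hf ε hε
  have hfL : ∀ i x y, |f i x - f i y| ≤ dist x y := by
    intro i x y
    have := le_norm (f i) x y
    rwa [hf i, one_mul] at this
  obtain ⟨n0, hn0⟩ := exists_edge G ℓ hcol (fun i => (f i : M → ℝ))
    (fun i a b hab => (hfL i a b).trans (hadj1 a b hab).le) hε
  obtain ⟨n1, hn1⟩ := exists_nat_ge (1 / ε)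
  set n : ℕ := max n0 n1 with hn
  obtain ⟨a, b, hab, ha, hfab⟩ := hn0 n (le_max_left _ _)
  have hεn : 1 ≤ ε * n := by
    have h1 : (n1 : ℝ) ≤ n := by exact_mod_cast le_max_right n0 n1
    have h2 : 1 / ε ≤ n := hn1.trans h1
    rw [div_le_iff₀ hε] at h2
    linarith
  obtain ⟨h, h01, hha, hhb, hedge, hreach⟩ := exists_cut G hab (n := n)
    (fun l φ hφ hφ0 => hcyc n l φ hφ (by rw [hφ0, ha])) hε hεn
  -- levels
  have hlevel : ∀ x, h x ≠ 1 → ℓ x = n + 1 := by
    intro x hx
    obtain ⟨p⟩ := hreach x hx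
    have key : ∀ {a b : M} (q : G.Walk a b), ℓ a = ℓ b := by
      intro a b q
      induction q with
      | nil => rfl
      | cons h _ ih => rw [hℓ _ _ h, ih]
    rw [← key p, ha]
  -- `h` is `1`-Lipschitz
  have hh1 : ∀ x y, |h x - h y| ≤ 1 := by
    intro x y
    rw [abs_le]
    constructor <;> linarith [(h01 x).1, (h01 x).2, (h01 y).1, (h01 y).2]
  have hhL : ∀ x y, |h x - h y| ≤ 1 * dist x y := by
    intro x y
    rw [one_mul]
    by_cases hxy : x = y
    · rw [hxy]; simp
    · exact (hh1 x y).trans (hd1 x y hxy)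
  let g : Lip M x₀ := ⟨fun x => h x - h x₀, by simp, 1, fun x y => by
    have := hhL x y
    simpa using this⟩
  have hg : ∀ x y, g x - g y = h x - h y := by
    intro x y
    show (h x - h x₀) - (h y - h x₀) = _
    ring
  have hgn : ‖g‖ = 1 := by
    apply le_antisymm
    · exact norm_le g zero_le_one (fun x y => by rw [hg]; exact hhL x y)
    · have := le_norm g a b
      rw [hg, hha, hhb, hadj1 a b hab] at this
      simpa using this
  -- the main estimate
  have main : ∀ (i : Fin k) (σ : ℝ), |σ| = 1 → ∀ x y,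
      |(f i x - f i y) + σ * (h x - h y)| ≤ (1 + ε) * dist x y := by
    intro i σ hσ x y
    have htri : ∀ x y, |(f i x - f i y) + σ * (h x - h y)| ≤ |f i x - f i y| + |h x - h y| := by
      intro x y
      calc |(f i x - f i y) + σ * (h x - h y)| ≤ |f i x - f i y| + |σ * (h x - h y)| :=
            abs_add_le _ _
        _ = |f i x - f i y| + |h x - h y| := by rw [abs_mul, hσ, one_mul]
    have hE : ∀ x y, G.Adj x y → |(f i x - f i y) + σ * (h x - h y)| ≤ 1 + ε := by
      intro x y hxy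
      have h1 := hfL i x y
      rw [hadj1 x y hxy] at h1
      by_cases hs : s(x, y) = s(a, b)
      · rw [Sym2.eq_iff] at hs
        have h2 : |f i x - f i y| ≤ ε := by
          rcases hs with ⟨rfl, rfl⟩ | ⟨rfl, rfl⟩
          · exact hfab i
          · rw [abs_sub_comm]; exact hfab i
        linarith [htri x y, hh1 x y]
      · linarith [htri x y, hedge x y hxy hs]
    have hW : ∀ {x y : M} (p : G.Walk x y),
        |(f i x - f i y) + σ * (h x - h y)| ≤ (1 + ε) * p.length := by
      intro x y p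
      induction p with
      | nil => simp
      | @cons u v w huv p ih =>
        have e : (f i u - f i w) + σ * (h u - h w) = ((f i u - f i v) + σ * (h u - h v)) +
            ((f i v - f i w) + σ * (h v - h w)) := by ring
        rw [e, Walk.length_cons]
        push_cast
        have := hE u v huv
        calc _ ≤ |(f i u - f i v) + σ * (h u - h v)| + |(f i v - f i w) + σ * (h v - h w)| :=
              abs_add_le _ _
          _ ≤ _ := by linarith
    rcases dd_cases G ℓ hℓ x y with ⟨p, hp, _⟩ | hd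
    · have := hW p
      rw [hp] at this
      rwa [hdist]
    · have h1 := hfL i x y
      have h2 : |h x - h y| ≤ ε * dist x y := by
        by_cases hxy : h x = h y
        · rw [hxy]; simp only [sub_self, abs_zero]
          exact mul_nonneg hε.le dist_nonneg
        · have h3 : n ≤ dd G ℓ x y := by
            rw [hd]
            by_cases hx : h x = 1
            · have : h y ≠ 1 := fun h' => hxy (hx.trans h'.symm)
              have := hlevel y this
              omega
            · have := hlevel x hx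
              omega
          have h4 : (n : ℝ) ≤ dist x y := by rw [hdist]; exact_mod_cast h3
          calc |h x - h y| ≤ 1 := hh1 x y
            _ ≤ ε * n := hεn
            _ ≤ ε * dist x y := mul_le_mul_of_nonneg_left h4 hε.le
      linarith [htri x y]
  refine ⟨g, hgn, fun i => ⟨?_, ?_⟩⟩
  · apply norm_le _ (by linarith)
    intro x y
    have := main i 1 (by simp) x y
    rw [add_coe, add_coe]
    have e : f i x + g x - (f i y + g y) = (f i x - f i y) + 1 * (h x - h y) := by
      have := hg x y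
      linarith
    rw [e]
    exact this
  · apply norm_le _ (by linarith)
    intro x y
    have := main i (-1) (by simp) x y
    rw [sub_coe, sub_coe]
    have e : f i x - g x - (f i y - g y) = (f i x - f i y) + (-1) * (h x - h y) := by
      have := hg x y
      linarith
    rw [e]
    exact this

end Pool.Agent.Results.MP_fe8a5b_an.LargeGirth
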